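import Mathlib

set_option autoImplicit false

open Set Matroid Module

namespace Pool.Agent.Lib.Pe1005d

section
variable {α F V : Type} [Field F] [AddCommGroup V] [Module F V]

lemma finrank_span_image_of_indep (φ : α → V) {b : Set α} (hb : LinearIndepOn F φ b)
    (hf : b.Finite) : Module.finrank F (Submodule.span F (φ '' b)) = b.ncard := by
  have := hf.fintype
  have h := finrank_span_eq_card hb.linearIndependent
  rw [show Set.range (fun x : b => φ x) = φ '' b by ext; simp] at h
  rw [h, Set.ncard_eq_toFinset_card', Set.toFinset_card]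

/-- augmentation for linear independence -/
lemma linIndep_aug [Finite α] (φ : α → V) {I J : Set α}
    (hI : LinearIndepOn F φ I) (hJ : LinearIndepOn F φ J) (h : I.ncard < J.ncard) :
    ∃ e ∈ J, e ∉ I ∧ LinearIndepOn F φ (insert e I) := by
  by_contra hcon
  push Not at hcon
  have hspan : ∀ e ∈ J, φ e ∈ Submodule.span F (φ '' I) := by
    intro e he
    by_cases heI : e ∈ I
    · exact Submodule.subset_span ⟨e, heI, rfl⟩
    · by_contra hns
      exact hcon e he heI (hI.insert hns)
  have hle : Submodule.span F (φ '' J) ≤ Submodule.span F (φ '' I) := by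
    rw [Submodule.span_le]
    rintro _ ⟨e, he, rfl⟩
    exact hspan e he
  have hfinI : I.Finite := Set.toFinite I
  have hfinJ : J.Finite := Set.toFinite J
  have : FiniteDimensional F (Submodule.span F (φ '' I)) :=
    FiniteDimensional.span_of_finite F (hfinI.image φ)
  have h3 := Submodule.finrank_mono hle
  rw [finrank_span_image_of_indep φ hJ hfinJ, finrank_span_image_of_indep φ hI hfinI] at h3
  omega

/-- The vector matroid of a family `φ` of vectors indexed by a finite type. -/
noncomputable def vecMatroid (F : Type) [Field F] {V : Type} [AddCommGroup V] [Module F V]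
    [Finite α] (φ : α → V) : Matroid α :=
  (IndepMatroid.ofFinite (E := Set.univ) Set.finite_univ (fun I => LinearIndepOn F φ I)
    (by simp) (fun _ _ hJ hIJ => hJ.mono hIJ) (fun _ _ hI hJ h => linIndep_aug φ hI hJ h)
    (fun _ _ => Set.subset_univ _)).matroid

variable [Finite α] (φ : α → V)

@[simp] lemma vecMatroid_E : (vecMatroid F φ).E = Set.univ := rfl

@[simp] lemma vecMatroid_indep {I : Set α} : (vecMatroid F φ).Indep I ↔ LinearIndepOn F φ I :=
  Iff.rfl

instance : (vecMatroid F φ).Finite := ⟨Set.toFinite _⟩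

lemma exists_basis (X : Set α) : ∃ b ⊆ X, (vecMatroid F φ).IsBasis b X ∧
    LinearIndepOn F φ b ∧ Submodule.span F (φ '' b) = Submodule.span F (φ '' X) := by
  obtain ⟨b, hbX, -, hsp, hb⟩ := exists_linearIndepOn_extension (K := F) (v := φ) (s := ∅) (t := X)
    (by simp) (by simp)
  have hspan : Submodule.span F (φ '' b) = Submodule.span F (φ '' X) := by
    apply le_antisymm
    · exact Submodule.span_mono (Set.image_mono hbX)
    · exact Submodule.span_le.2 hsp
  refine ⟨b, hbX, ?_, hb, hspan⟩
  rw [Matroid.isBasis_iff_maximal (hX := Set.subset_univ _)]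
  refine ⟨⟨hb, hbX⟩, ?_⟩
  rintro J ⟨hJ, hJX⟩ hbJ e heJ
  by_contra heb
  have h1 : LinearIndepOn F φ (insert e b) := by
    have hJ' : LinearIndepOn F φ J := hJ
    exact hJ'.mono (Set.insert_subset heJ hbJ)
  have h2 := (linearIndepOn_insert heb).1 h1
  exact h2.2 (hspan ▸ (Submodule.subset_span ⟨e, hJX heJ, rfl⟩))

lemma vec_eRk (X : Set α) :
    (vecMatroid F φ).eRk X = (Module.finrank F (Submodule.span F (φ '' X)) : ℕ) := by
  obtain ⟨b, hbX, hb, hbi, hsp⟩ := exists_basis (F := F) φ X
  rw [← hb.encard_eq_eRk, ← hsp, finrank_span_image_of_indep φ hbi (Set.toFinite b),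
    (Set.toFinite b).cast_ncard_eq]

lemma vec_mem_closure {X : Set α} {e : α} :
    e ∈ (vecMatroid F φ).closure X ↔ φ e ∈ Submodule.span F (φ '' X) := by
  obtain ⟨b, hbX, hb, hbi, hsp⟩ := exists_basis (F := F) φ X
  rw [← hb.closure_eq_closure, ← hsp]
  have hbI : (vecMatroid F φ).Indep b := hbi
  rw [hbI.mem_closure_iff]
  by_cases heb : e ∈ b
  · simp only [heb, or_true, true_iff]
    exact Submodule.subset_span ⟨e, heb, rfl⟩
  · simp only [heb, or_false]
    rw [← Matroid.not_indep_iff (hX := Set.subset_univ _), vecMatroid_indep,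
      linearIndepOn_insert heb]
    simp [hbi]

lemma vec_isFlat_iff {X : Set α} :
    (vecMatroid F φ).IsFlat X ↔ ∀ e, φ e ∈ Submodule.span F (φ '' X) → e ∈ X := by
  rw [Matroid.isFlat_iff_closure_eq]
  constructor
  · intro h e he
    rw [← h]
    exact (vec_mem_closure φ).2 he
  · intro h
    apply Set.Subset.antisymm
    · intro e he
      exact h e ((vec_mem_closure φ).1 he)
    · exact Matroid.subset_closure _ _ (Set.subset_univ _)

end

/-- natural number valued rank -/
noncomputable def rk {α : Type} (M : Matroid α) (X : Set α) : ℕ := (M.eRk X).toNat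

section
variable {α F V : Type} [Field F] [AddCommGroup V] [Module F V] [Finite α] (φ : α → V)

lemma vec_rk (X : Set α) : rk (vecMatroid F φ) X = Module.finrank F (Submodule.span F (φ '' X)) := by
  rw [rk, vec_eRk]; simp

/-- rank in a contraction -/
lemma rk_contract (M : Matroid α) [M.Finite] (C X : Set α) (hC : C ⊆ M.E) (hX : X ⊆ M.E \ C) :
    rk (M ／ C) X + rk M C = rk M (X ∪ C) := by
  obtain ⟨I, hI⟩ := M.exists_isBasis C hC
  have hX' : X ⊆ (M ／ C).E := by simpa using hX
  obtain ⟨J, hJ⟩ := (M ／ C).exists_isBasis X hX'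
  have hCeq : M ／ C = M ／ I ＼ (C \ I) := hI.contract_eq_contract_delete
  have hJ1 : (M ／ I).IsBasis J X := by
    have h := hJ
    rw [hCeq] at h
    exact (Matroid.delete_isBasis_iff.1 h).1
  have hJI := hI.indep.union_isBasis_union_of_contract_isBasis hJ1
  have hdisj : Disjoint J I := by
    have h1 : J ⊆ X := hJ.subset
    have h2 : Disjoint X C := by
      rw [Set.disjoint_left]; intro a ha hc; exact (hX ha).2 hc
    exact (h2.mono h1 hI.subset)
  have h3 : M.eRk (X ∪ C) = M.eRk (X ∪ I) := by
    rw [← M.eRk_union_closure_right_eq X C, ← M.eRk_union_closure_right_eq X I,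
      hI.closure_eq_closure]
  have hfin : ∀ (Y : Set α), Y.Finite := fun Y => Set.toFinite Y
  rw [rk, rk, rk, h3, ← hJI.encard_eq_eRk, ← hI.encard_eq_eRk, ← hJ.encard_eq_eRk,
    Set.encard_union_eq hdisj, ← (hfin J).cast_ncard_eq, ← (hfin I).cast_ncard_eq]
  norm_cast

end

end Pool.Agent.Lib.Pe1005d
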