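import Mathlib
import Pool.Agent.Lib.Pe1005d.Vec

set_option autoImplicit false
set_option maxRecDepth 100000

namespace Pool.Agent.Lib.Pe1005d

/-- the nineteen points -/
def P : Fin 19 → Fin 4 → ZMod 7 := ![
  ![1, 0, 0, 0],
  ![1, 1, 0, 0],
  ![1, 6, 0, 0],
  ![1, 2, 1, 0],
  ![1, 5, 6, 0],
  ![1, 3, 0, 1],
  ![1, 4, 0, 1],
  ![0, 1, 0, 0],
  ![0, 1, 0, 2],
  ![0, 1, 0, 3],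
  ![0, 1, 0, 4],
  ![0, 1, 0, 5],
  ![0, 1, 1, 0],
  ![0, 1, 3, 3],
  ![0, 1, 3, 4],
  ![0, 1, 4, 0],
  ![0, 1, 5, 0],
  ![0, 1, 6, 1],
  ![0, 1, 6, 6]]

/-- functionals separating the closure of a pair -/
def Ttab : List (List (List ℕ)) := [
  [[0, 1, 0, 0], [0, 0, 1, 2], [0, 0, 1, 2], [0, 1, 5, 0], [0, 1, 5, 0], [0, 1, 0, 4], [0, 1, 0, 3], [0, 0, 1, 2], [0, 1, 0, 3], [0, 1, 1, 2], [0, 1, 1, 5], [0, 1, 0, 4], [0, 1, 6, 0], [0, 1, 1, 1], [0, 1, 1, 6], [0, 1, 5, 0], [0, 1, 4, 0], [0, 1, 0, 6], [0, 1, 0, 1]],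
  [[0, 0, 1, 2], [1, 6, 0, 0], [0, 0, 1, 2], [1, 6, 1, 0], [1, 6, 3, 0], [1, 6, 5, 2], [1, 6, 0, 3], [0, 0, 1, 2], [1, 6, 0, 4], [1, 6, 5, 5], [1, 6, 5, 2], [1, 6, 0, 3], [1, 6, 1, 0], [1, 6, 4, 1], [1, 6, 4, 6], [1, 6, 2, 0], [1, 6, 3, 0], [1, 6, 0, 1], [1, 6, 0, 6]],
  [[0, 0, 1, 2], [0, 0, 1, 2], [1, 1, 0, 0], [1, 1, 4, 0], [1, 1, 6, 0], [1, 1, 0, 3], [1, 1, 1, 2], [0, 0, 1, 2], [1, 1, 0, 3], [1, 1, 1, 2], [1, 1, 1, 5], [1, 1, 0, 4], [1, 1, 6, 0], [1, 1, 1, 1], [1, 1, 1, 6], [1, 1, 5, 0], [1, 1, 4, 0], [1, 1, 0, 6], [1, 1, 0, 1]],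
  [[0, 1, 5, 0], [1, 6, 1, 0], [1, 1, 4, 0], [1, 3, 0, 0], [0, 1, 5, 0], [1, 3, 0, 4], [1, 2, 2, 5], [1, 0, 6, 2], [1, 2, 2, 6], [1, 2, 2, 4], [1, 2, 2, 3], [1, 2, 2, 1], [1, 6, 1, 0], [1, 2, 2, 2], [1, 2, 2, 5], [0, 1, 5, 0], [1, 1, 4, 0], [1, 3, 0, 4], [1, 3, 0, 3]],
  [[0, 1, 5, 0], [1, 6, 3, 0], [1, 1, 6, 0], [0, 1, 5, 0], [1, 3, 2, 0], [1, 3, 2, 4], [1, 2, 4, 5], [1, 0, 1, 2], [1, 2, 4, 6], [1, 2, 4, 4], [1, 2, 4, 3], [1, 2, 4, 1], [1, 1, 6, 0], [1, 3, 2, 4], [1, 3, 2, 3], [0, 1, 5, 0], [1, 6, 3, 0], [1, 2, 4, 2], [1, 2, 4, 5]],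
  [[0, 1, 0, 4], [1, 6, 5, 2], [1, 1, 0, 3], [1, 3, 0, 4], [1, 3, 2, 4], [1, 2, 0, 0], [1, 0, 2, 6], [1, 0, 2, 6], [1, 1, 0, 3], [1, 4, 1, 1], [1, 6, 5, 2], [0, 1, 0, 4], [1, 2, 5, 0], [1, 3, 2, 4], [1, 3, 3, 4], [1, 2, 3, 0], [1, 2, 1, 0], [1, 3, 0, 4], [1, 3, 6, 4]],
  [[0, 1, 0, 3], [1, 6, 0, 3], [1, 1, 1, 2], [1, 2, 2, 5], [1, 2, 4, 5], [1, 0, 2, 6], [1, 5, 0, 0], [1, 0, 2, 6], [0, 1, 0, 3], [1, 1, 1, 2], [1, 3, 3, 1], [1, 6, 0, 3], [1, 2, 5, 5], [1, 2, 6, 5], [1, 2, 2, 5], [1, 2, 3, 5], [1, 2, 1, 5], [1, 2, 0, 5], [1, 2, 4, 5]],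
  [[0, 0, 1, 2], [0, 0, 1, 2], [0, 0, 1, 2], [1, 0, 6, 2], [1, 0, 1, 2], [1, 0, 2, 6], [1, 0, 2, 6], [1, 0, 2, 1], [1, 0, 2, 0], [1, 0, 2, 0], [1, 0, 2, 0], [1, 0, 2, 0], [1, 0, 0, 1], [1, 0, 2, 5], [1, 0, 2, 2], [1, 0, 0, 1], [1, 0, 0, 1], [1, 0, 2, 2], [1, 0, 2, 5]],
  [[0, 1, 0, 3], [1, 6, 0, 4], [1, 1, 0, 3], [1, 2, 2, 6], [1, 2, 4, 6], [1, 1, 0, 3], [0, 1, 0, 3], [1, 0, 2, 0], [1, 2, 0, 6], [1, 0, 2, 0], [1, 0, 2, 0], [1, 0, 2, 0], [1, 2, 5, 6], [1, 2, 5, 6], [1, 2, 3, 6], [1, 2, 3, 6], [1, 2, 1, 6], [1, 2, 1, 6], [1, 2, 3, 6]],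
  [[0, 1, 1, 2], [1, 6, 5, 5], [1, 1, 1, 2], [1, 2, 2, 4], [1, 2, 4, 4], [1, 4, 1, 1], [1, 1, 1, 2], [1, 0, 2, 0], [1, 0, 2, 0], [1, 3, 3, 6], [1, 0, 2, 0], [1, 0, 2, 0], [1, 2, 5, 4], [1, 2, 0, 4], [1, 2, 1, 4], [1, 2, 3, 4], [1, 2, 1, 4], [1, 2, 6, 4], [1, 2, 5, 4]],
  [[0, 1, 1, 5], [1, 6, 5, 2], [1, 1, 1, 5], [1, 2, 2, 3], [1, 2, 4, 3], [1, 6, 5, 2], [1, 3, 3, 1], [1, 0, 2, 0], [1, 0, 2, 0], [1, 0, 2, 0], [1, 4, 1, 6], [1, 0, 2, 0], [1, 2, 5, 3], [1, 2, 1, 3], [1, 2, 0, 3], [1, 2, 3, 3], [1, 2, 1, 3], [1, 2, 5, 3], [1, 2, 6, 3]],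
  [[0, 1, 0, 4], [1, 6, 0, 3], [1, 1, 0, 4], [1, 2, 2, 1], [1, 2, 4, 1], [0, 1, 0, 4], [1, 6, 0, 3], [1, 0, 2, 0], [1, 0, 2, 0], [1, 0, 2, 0], [1, 0, 2, 0], [1, 2, 0, 1], [1, 2, 5, 1], [1, 2, 3, 1], [1, 2, 5, 1], [1, 2, 3, 1], [1, 2, 1, 1], [1, 2, 3, 1], [1, 2, 1, 1]],
  [[0, 1, 6, 0], [1, 6, 1, 0], [1, 1, 6, 0], [1, 6, 1, 0], [1, 1, 6, 0], [1, 2, 5, 0], [1, 2, 5, 5], [1, 0, 0, 1], [1, 2, 5, 6], [1, 2, 5, 4], [1, 2, 5, 3], [1, 2, 5, 1], [1, 2, 5, 2], [1, 2, 5, 6], [1, 2, 5, 1], [1, 0, 0, 1], [1, 0, 0, 1], [1, 2, 5, 3], [1, 2, 5, 4]],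
  [[0, 1, 1, 1], [1, 6, 4, 1], [1, 1, 1, 1], [1, 2, 2, 2], [1, 3, 2, 4], [1, 3, 2, 4], [1, 2, 6, 5], [1, 0, 2, 5], [1, 2, 5, 6], [1, 2, 0, 4], [1, 2, 1, 3], [1, 2, 3, 1], [1, 2, 5, 6], [1, 3, 3, 3], [1, 3, 6, 0], [1, 2, 3, 1], [1, 2, 1, 3], [1, 2, 3, 1], [1, 0, 2, 5]],
  [[0, 1, 1, 6], [1, 6, 4, 6], [1, 1, 1, 6], [1, 2, 2, 5], [1, 3, 2, 3], [1, 3, 3, 4], [1, 2, 2, 5], [1, 0, 2, 2], [1, 2, 3, 6], [1, 2, 1, 4], [1, 2, 0, 3], [1, 2, 5, 1], [1, 2, 5, 1], [1, 3, 6, 0], [1, 2, 6, 2], [1, 2, 3, 6], [1, 2, 1, 4], [1, 0, 2, 2], [1, 2, 3, 6]],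
  [[0, 1, 5, 0], [1, 6, 2, 0], [1, 1, 5, 0], [0, 1, 5, 0], [0, 1, 5, 0], [1, 2, 3, 0], [1, 2, 3, 5], [1, 0, 0, 1], [1, 2, 3, 6], [1, 2, 3, 4], [1, 2, 3, 3], [1, 2, 3, 1], [1, 0, 0, 1], [1, 2, 3, 1], [1, 2, 3, 6], [1, 2, 3, 2], [1, 0, 0, 1], [1, 2, 3, 1], [1, 2, 3, 6]],
  [[0, 1, 4, 0], [1, 6, 3, 0], [1, 1, 4, 0], [1, 1, 4, 0], [1, 6, 3, 0], [1, 2, 1, 0], [1, 2, 1, 5], [1, 0, 0, 1], [1, 2, 1, 6], [1, 2, 1, 4], [1, 2, 1, 3], [1, 2, 1, 1], [1, 0, 0, 1], [1, 2, 1, 3], [1, 2, 1, 4], [1, 0, 0, 1], [1, 2, 1, 2], [1, 2, 1, 6], [1, 2, 1, 1]],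
  [[0, 1, 0, 6], [1, 6, 0, 1], [1, 1, 0, 6], [1, 3, 0, 4], [1, 2, 4, 2], [1, 3, 0, 4], [1, 2, 0, 5], [1, 0, 2, 2], [1, 2, 1, 6], [1, 2, 6, 4], [1, 2, 5, 3], [1, 2, 3, 1], [1, 2, 5, 3], [1, 2, 3, 1], [1, 0, 2, 2], [1, 2, 3, 1], [1, 2, 1, 6], [1, 3, 6, 3], [1, 3, 3, 0]],
  [[0, 1, 0, 1], [1, 6, 0, 6], [1, 1, 0, 1], [1, 3, 0, 3], [1, 2, 4, 5], [1, 3, 6, 4], [1, 2, 4, 5], [1, 0, 2, 5], [1, 2, 3, 6], [1, 2, 5, 4], [1, 2, 6, 3], [1, 2, 1, 1], [1, 2, 5, 4], [1, 0, 2, 5], [1, 2, 3, 6], [1, 2, 3, 6], [1, 2, 1, 1], [1, 3, 3, 0], [1, 2, 0, 2]]]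

/-- planes disjoint from a line, with three independent points of the plane -/
def Gtab : List (List (List ℕ)) := [
  [[0, 0, 0, 0, 0, 0, 0], [1, 2, 2, 0, 3, 5, 18], [1, 2, 2, 0, 3, 5, 18], [1, 1, 0, 2, 2, 6, 13], [1, 1, 0, 2, 2, 6, 13], [1, 0, 1, 1, 4, 7, 14], [1, 0, 1, 1, 4, 7, 14], [1, 2, 2, 0, 3, 5, 18], [1, 0, 1, 1, 4, 7, 14], [1, 0, 0, 6, 5, 6, 12], [1, 0, 0, 6, 5, 6, 12], [1, 0, 1, 1, 4, 7, 14], [1, 0, 1, 0, 4, 7, 8], [1, 0, 0, 6, 5, 6, 12], [1, 0, 0, 6, 5, 6, 12], [1, 1, 0, 2, 2, 6, 13], [1, 0, 1, 0, 4, 7, 8], [1, 0, 0, 6, 5, 6, 12], [1, 0, 0, 6, 5, 6, 12]],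
  [[1, 2, 2, 0, 3, 5, 18], [0, 0, 0, 0, 0, 0, 0], [1, 2, 2, 0, 3, 5, 18], [0, 1, 0, 2, 0, 9, 13], [0, 1, 0, 2, 0, 9, 13], [0, 1, 0, 2, 0, 9, 13], [0, 1, 0, 2, 0, 9, 13], [1, 2, 2, 0, 3, 5, 18], [0, 1, 0, 2, 0, 9, 13], [0, 1, 0, 5, 0, 10, 14], [0, 1, 0, 2, 0, 9, 13], [0, 1, 0, 2, 0, 9, 13], [0, 1, 0, 2, 0, 9, 13], [0, 1, 0, 5, 0, 10, 14], [0, 1, 0, 2, 0, 9, 13], [0, 1, 0, 2, 0, 9, 13], [0, 1, 0, 2, 0, 9, 13], [0, 1, 0, 2, 0, 9, 13], [0, 1, 0, 2, 0, 9, 13]],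
  [[1, 2, 2, 0, 3, 5, 18], [1, 2, 2, 0, 3, 5, 18], [0, 0, 0, 0, 0, 0, 0], [0, 1, 0, 2, 0, 9, 13], [0, 1, 0, 2, 0, 9, 13], [0, 1, 0, 2, 0, 9, 13], [0, 1, 0, 5, 0, 10, 14], [1, 2, 2, 0, 3, 5, 18], [0, 1, 0, 2, 0, 9, 13], [0, 1, 0, 5, 0, 10, 14], [0, 1, 0, 2, 0, 9, 13], [0, 1, 0, 2, 0, 9, 13], [0, 1, 0, 2, 0, 9, 13], [0, 1, 0, 5, 0, 10, 14], [0, 1, 0, 2, 0, 9, 13], [0, 1, 0, 2, 0, 9, 13], [0, 1, 0, 2, 0, 9, 13], [0, 1, 0, 2, 0, 9, 13], [0, 1, 0, 2, 0, 9, 13]],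
  [[1, 1, 0, 2, 2, 6, 13], [0, 1, 0, 2, 0, 9, 13], [0, 1, 0, 2, 0, 9, 13], [0, 0, 0, 0, 0, 0, 0], [1, 1, 0, 2, 2, 6, 13], [0, 0, 1, 6, 0, 1, 13], [0, 0, 1, 6, 0, 1, 13], [0, 1, 0, 2, 0, 9, 13], [0, 0, 1, 1, 0, 1, 14], [0, 0, 1, 1, 0, 1, 14], [0, 0, 1, 1, 0, 1, 14], [0, 0, 1, 1, 0, 1, 14], [0, 1, 0, 2, 0, 9, 13], [0, 0, 1, 0, 0, 1, 5], [0, 0, 1, 6, 0, 1, 13], [1, 1, 0, 2, 2, 6, 13], [0, 1, 0, 2, 0, 9, 13], [0, 0, 1, 6, 0, 1, 13], [0, 0, 1, 0, 0, 1, 5]],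
  [[1, 1, 0, 2, 2, 6, 13], [0, 1, 0, 2, 0, 9, 13], [0, 1, 0, 2, 0, 9, 13], [1, 1, 0, 2, 2, 6, 13], [0, 0, 0, 0, 0, 0, 0], [0, 0, 1, 1, 0, 1, 14], [0, 0, 1, 1, 0, 1, 14], [0, 1, 0, 2, 0, 9, 13], [0, 0, 1, 1, 0, 1, 14], [0, 0, 1, 1, 0, 1, 14], [0, 0, 1, 1, 0, 1, 14], [0, 0, 1, 1, 0, 1, 14], [0, 1, 0, 2, 0, 9, 13], [0, 0, 1, 1, 0, 1, 14], [0, 0, 1, 0, 0, 1, 5], [1, 1, 0, 2, 2, 6, 13], [0, 1, 0, 2, 0, 9, 13], [0, 0, 1, 0, 0, 1, 5], [0, 0, 1, 1, 0, 1, 14]],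
  [[1, 0, 1, 1, 4, 7, 14], [0, 1, 0, 2, 0, 9, 13], [0, 1, 0, 2, 0, 9, 13], [0, 0, 1, 6, 0, 1, 13], [0, 0, 1, 1, 0, 1, 14], [0, 0, 0, 0, 0, 0, 0], [0, 1, 0, 2, 0, 9, 13], [0, 1, 0, 2, 0, 9, 13], [0, 1, 0, 2, 0, 9, 13], [0, 0, 0, 1, 0, 1, 3], [0, 1, 0, 2, 0, 9, 13], [1, 0, 1, 1, 4, 7, 14], [0, 0, 1, 1, 0, 1, 14], [0, 0, 1, 1, 0, 1, 14], [0, 0, 0, 1, 0, 1, 3], [0, 0, 1, 1, 0, 1, 14], [0, 0, 1, 1, 0, 1, 14], [0, 0, 1, 6, 0, 1, 13], [0, 0, 0, 1, 0, 1, 3]],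
  [[1, 0, 1, 1, 4, 7, 14], [0, 1, 0, 2, 0, 9, 13], [0, 1, 0, 5, 0, 10, 14], [0, 0, 1, 6, 0, 1, 13], [0, 0, 1, 1, 0, 1, 14], [0, 1, 0, 2, 0, 9, 13], [0, 0, 0, 0, 0, 0, 0], [0, 1, 0, 2, 0, 9, 13], [1, 0, 1, 1, 4, 7, 14], [0, 1, 0, 5, 0, 10, 14], [0, 0, 0, 1, 0, 1, 3], [0, 1, 0, 2, 0, 9, 13], [0, 0, 1, 1, 0, 1, 14], [0, 0, 0, 1, 0, 1, 3], [0, 0, 1, 6, 0, 1, 13], [0, 0, 1, 1, 0, 1, 14], [0, 0, 1, 1, 0, 1, 14], [0, 0, 0, 1, 0, 1, 3], [0, 0, 1, 1, 0, 1, 14]],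
  [[1, 2, 2, 0, 3, 5, 18], [1, 2, 2, 0, 3, 5, 18], [1, 2, 2, 0, 3, 5, 18], [0, 1, 0, 2, 0, 9, 13], [0, 1, 0, 2, 0, 9, 13], [0, 1, 0, 2, 0, 9, 13], [0, 1, 0, 2, 0, 9, 13], [0, 0, 0, 0, 0, 0, 0], [0, 1, 1, 0, 0, 17, 18], [0, 1, 1, 0, 0, 17, 18], [0, 1, 1, 0, 0, 17, 18], [0, 1, 1, 0, 0, 17, 18], [0, 1, 0, 2, 0, 9, 13], [0, 1, 0, 5, 0, 10, 14], [0, 1, 0, 2, 0, 9, 13], [0, 1, 0, 2, 0, 9, 13], [0, 1, 0, 2, 0, 9, 13], [0, 1, 0, 2, 0, 9, 13], [0, 1, 0, 5, 0, 10, 14]],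
  [[1, 0, 1, 1, 4, 7, 14], [0, 1, 0, 2, 0, 9, 13], [0, 1, 0, 2, 0, 9, 13], [0, 0, 1, 1, 0, 1, 14], [0, 0, 1, 1, 0, 1, 14], [0, 1, 0, 2, 0, 9, 13], [1, 0, 1, 1, 4, 7, 14], [0, 1, 1, 0, 0, 17, 18], [0, 0, 0, 0, 0, 0, 0], [0, 1, 1, 0, 0, 17, 18], [0, 1, 1, 0, 0, 17, 18], [0, 1, 1, 0, 0, 17, 18], [0, 0, 1, 1, 0, 1, 14], [0, 0, 1, 1, 0, 1, 14], [0, 1, 0, 2, 0, 9, 13], [0, 1, 0, 2, 0, 9, 13], [0, 0, 1, 6, 0, 1, 13], [0, 0, 1, 6, 0, 1, 13], [0, 1, 0, 2, 0, 9, 13]],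
  [[1, 0, 0, 6, 5, 6, 12], [0, 1, 0, 5, 0, 10, 14], [0, 1, 0, 5, 0, 10, 14], [0, 0, 1, 1, 0, 1, 14], [0, 0, 1, 1, 0, 1, 14], [0, 0, 0, 1, 0, 1, 3], [0, 1, 0, 5, 0, 10, 14], [0, 1, 1, 0, 0, 17, 18], [0, 1, 1, 0, 0, 17, 18], [0, 0, 0, 0, 0, 0, 0], [0, 1, 1, 0, 0, 17, 18], [0, 1, 1, 0, 0, 17, 18], [0, 0, 1, 1, 0, 1, 14], [0, 0, 0, 1, 0, 1, 3], [0, 0, 1, 6, 0, 1, 13], [0, 0, 1, 1, 0, 1, 14], [0, 0, 1, 6, 0, 1, 13], [0, 0, 0, 1, 0, 1, 3], [0, 0, 1, 1, 0, 1, 14]],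
  [[1, 0, 0, 6, 5, 6, 12], [0, 1, 0, 2, 0, 9, 13], [0, 1, 0, 2, 0, 9, 13], [0, 0, 1, 1, 0, 1, 14], [0, 0, 1, 1, 0, 1, 14], [0, 1, 0, 2, 0, 9, 13], [0, 0, 0, 1, 0, 1, 3], [0, 1, 1, 0, 0, 17, 18], [0, 1, 1, 0, 0, 17, 18], [0, 1, 1, 0, 0, 17, 18], [0, 0, 0, 0, 0, 0, 0], [0, 1, 1, 0, 0, 17, 18], [0, 0, 1, 6, 0, 1, 13], [0, 0, 1, 1, 0, 1, 14], [0, 0, 0, 1, 0, 1, 3], [0, 0, 1, 1, 0, 1, 14], [0, 0, 1, 1, 0, 1, 14], [0, 0, 1, 6, 0, 1, 13], [0, 0, 0, 1, 0, 1, 3]],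
  [[1, 0, 1, 1, 4, 7, 14], [0, 1, 0, 2, 0, 9, 13], [0, 1, 0, 2, 0, 9, 13], [0, 0, 1, 1, 0, 1, 14], [0, 0, 1, 1, 0, 1, 14], [1, 0, 1, 1, 4, 7, 14], [0, 1, 0, 2, 0, 9, 13], [0, 1, 1, 0, 0, 17, 18], [0, 1, 1, 0, 0, 17, 18], [0, 1, 1, 0, 0, 17, 18], [0, 1, 1, 0, 0, 17, 18], [0, 0, 0, 0, 0, 0, 0], [0, 0, 1, 6, 0, 1, 13], [0, 1, 0, 5, 0, 10, 14], [0, 0, 1, 6, 0, 1, 13], [0, 1, 0, 5, 0, 10, 14], [0, 0, 1, 1, 0, 1, 14], [0, 1, 0, 5, 0, 10, 14], [0, 0, 1, 1, 0, 1, 14]],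
  [[1, 0, 1, 0, 4, 7, 8], [0, 1, 0, 2, 0, 9, 13], [0, 1, 0, 2, 0, 9, 13], [0, 1, 0, 2, 0, 9, 13], [0, 1, 0, 2, 0, 9, 13], [0, 0, 1, 1, 0, 1, 14], [0, 0, 1, 1, 0, 1, 14], [0, 1, 0, 2, 0, 9, 13], [0, 0, 1, 1, 0, 1, 14], [0, 0, 1, 1, 0, 1, 14], [0, 0, 1, 6, 0, 1, 13], [0, 0, 1, 6, 0, 1, 13], [0, 0, 0, 0, 0, 0, 0], [0, 0, 1, 1, 0, 1, 14], [0, 0, 1, 6, 0, 1, 13], [0, 1, 0, 2, 0, 9, 13], [0, 1, 0, 2, 0, 9, 13], [0, 0, 1, 6, 0, 1, 13], [0, 0, 1, 1, 0, 1, 14]],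
  [[1, 0, 0, 6, 5, 6, 12], [0, 1, 0, 5, 0, 10, 14], [0, 1, 0, 5, 0, 10, 14], [0, 0, 1, 0, 0, 1, 5], [0, 0, 1, 1, 0, 1, 14], [0, 0, 1, 1, 0, 1, 14], [0, 0, 0, 1, 0, 1, 3], [0, 1, 0, 5, 0, 10, 14], [0, 0, 1, 1, 0, 1, 14], [0, 0, 0, 1, 0, 1, 3], [0, 0, 1, 1, 0, 1, 14], [0, 1, 0, 5, 0, 10, 14], [0, 0, 1, 1, 0, 1, 14], [0, 0, 0, 0, 0, 0, 0], [0, 0, 0, 1, 0, 1, 3], [0, 1, 0, 5, 0, 10, 14], [0, 0, 1, 1, 0, 1, 14], [0, 1, 0, 5, 0, 10, 14], [0, 1, 0, 5, 0, 10, 14]],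
  [[1, 0, 0, 6, 5, 6, 12], [0, 1, 0, 2, 0, 9, 13], [0, 1, 0, 2, 0, 9, 13], [0, 0, 1, 6, 0, 1, 13], [0, 0, 1, 0, 0, 1, 5], [0, 0, 0, 1, 0, 1, 3], [0, 0, 1, 6, 0, 1, 13], [0, 1, 0, 2, 0, 9, 13], [0, 1, 0, 2, 0, 9, 13], [0, 0, 1, 6, 0, 1, 13], [0, 0, 0, 1, 0, 1, 3], [0, 0, 1, 6, 0, 1, 13], [0, 0, 1, 6, 0, 1, 13], [0, 0, 0, 1, 0, 1, 3], [0, 0, 0, 0, 0, 0, 0], [0, 1, 0, 2, 0, 9, 13], [0, 0, 1, 6, 0, 1, 13], [0, 1, 0, 2, 0, 9, 13], [0, 1, 0, 2, 0, 9, 13]],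
  [[1, 1, 0, 2, 2, 6, 13], [0, 1, 0, 2, 0, 9, 13], [0, 1, 0, 2, 0, 9, 13], [1, 1, 0, 2, 2, 6, 13], [1, 1, 0, 2, 2, 6, 13], [0, 0, 1, 1, 0, 1, 14], [0, 0, 1, 1, 0, 1, 14], [0, 1, 0, 2, 0, 9, 13], [0, 1, 0, 2, 0, 9, 13], [0, 0, 1, 1, 0, 1, 14], [0, 0, 1, 1, 0, 1, 14], [0, 1, 0, 5, 0, 10, 14], [0, 1, 0, 2, 0, 9, 13], [0, 1, 0, 5, 0, 10, 14], [0, 1, 0, 2, 0, 9, 13], [0, 0, 0, 0, 0, 0, 0], [0, 1, 0, 2, 0, 9, 13], [0, 1, 0, 5, 0, 10, 14], [0, 1, 0, 2, 0, 9, 13]],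
  [[1, 0, 1, 0, 4, 7, 8], [0, 1, 0, 2, 0, 9, 13], [0, 1, 0, 2, 0, 9, 13], [0, 1, 0, 2, 0, 9, 13], [0, 1, 0, 2, 0, 9, 13], [0, 0, 1, 1, 0, 1, 14], [0, 0, 1, 1, 0, 1, 14], [0, 1, 0, 2, 0, 9, 13], [0, 0, 1, 6, 0, 1, 13], [0, 0, 1, 6, 0, 1, 13], [0, 0, 1, 1, 0, 1, 14], [0, 0, 1, 1, 0, 1, 14], [0, 1, 0, 2, 0, 9, 13], [0, 0, 1, 1, 0, 1, 14], [0, 0, 1, 6, 0, 1, 13], [0, 1, 0, 2, 0, 9, 13], [0, 0, 0, 0, 0, 0, 0], [0, 0, 1, 6, 0, 1, 13], [0, 0, 1, 1, 0, 1, 14]],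
  [[1, 0, 0, 6, 5, 6, 12], [0, 1, 0, 2, 0, 9, 13], [0, 1, 0, 2, 0, 9, 13], [0, 0, 1, 6, 0, 1, 13], [0, 0, 1, 0, 0, 1, 5], [0, 0, 1, 6, 0, 1, 13], [0, 0, 0, 1, 0, 1, 3], [0, 1, 0, 2, 0, 9, 13], [0, 0, 1, 6, 0, 1, 13], [0, 0, 0, 1, 0, 1, 3], [0, 0, 1, 6, 0, 1, 13], [0, 1, 0, 5, 0, 10, 14], [0, 0, 1, 6, 0, 1, 13], [0, 1, 0, 5, 0, 10, 14], [0, 1, 0, 2, 0, 9, 13], [0, 1, 0, 5, 0, 10, 14], [0, 0, 1, 6, 0, 1, 13], [0, 0, 0, 0, 0, 0, 0], [0, 0, 0, 1, 0, 1, 3]],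
  [[1, 0, 0, 6, 5, 6, 12], [0, 1, 0, 2, 0, 9, 13], [0, 1, 0, 2, 0, 9, 13], [0, 0, 1, 0, 0, 1, 5], [0, 0, 1, 1, 0, 1, 14], [0, 0, 0, 1, 0, 1, 3], [0, 0, 1, 1, 0, 1, 14], [0, 1, 0, 5, 0, 10, 14], [0, 1, 0, 2, 0, 9, 13], [0, 0, 1, 1, 0, 1, 14], [0, 0, 0, 1, 0, 1, 3], [0, 0, 1, 1, 0, 1, 14], [0, 0, 1, 1, 0, 1, 14], [0, 1, 0, 5, 0, 10, 14], [0, 1, 0, 2, 0, 9, 13], [0, 1, 0, 2, 0, 9, 13], [0, 0, 1, 1, 0, 1, 14], [0, 0, 0, 1, 0, 1, 3], [0, 0, 0, 0, 0, 0, 0]]]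

def Atab : List (List (List ℕ)) := [
  [[7, 0], [7, 6], [7, 1], [15, 5], [15, 2], [11, 4], [8, 3]],
  [[7, 1], [7, 0], [7, 2], [12, 6], [16, 3], [10, 5], [11, 4]],
  [[7, 6], [7, 5], [7, 0], [16, 4], [12, 1], [8, 3], [9, 2]],
  [[15, 2], [12, 1], [16, 3], [7, 0], [15, 4], [17, 6], [14, 5]],
  [[15, 5], [16, 4], [12, 6], [15, 3], [7, 0], [13, 2], [18, 1]],
  [[11, 3], [10, 2], [8, 4], [17, 1], [13, 5], [7, 0], [7, 6]],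
  [[8, 4], [11, 3], [9, 5], [14, 2], [18, 6], [7, 1], [7, 0]]]
/-- dot product with a functional given by a list of natural numbers -/
def dot (l : List ℕ) (v : Fin 4 → ZMod 7) : ZMod 7 :=
  (l.getD 0 0 : ZMod 7) * v 0 + (l.getD 1 0 : ZMod 7) * v 1 +
    (l.getD 2 0 : ZMod 7) * v 2 + (l.getD 3 0 : ZMod 7) * v 3

def Tf (i j : Fin 19) : List ℕ := (Ttab.getD i.val []).getD j.val []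
def Gf (i j : Fin 19) : List ℕ := (Gtab.getD i.val []).getD j.val []

def chkT (i j : Fin 19) : Bool :=
  (decide (dot (Tf i j) (P i) = 0)) && (decide (dot (Tf i j) (P j) = 0)) &&
    (List.finRange 19).all fun x => (decide (dot (Tf i j) (P x) ≠ 0)) ||
      (List.finRange 7).any fun a => (List.finRange 7).any fun b =>
        (List.finRange 4).all fun k => decide (P x k = (a.val : ZMod 7) * P i k + (b.val : ZMod 7) * P j k)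

theorem chkT_all : ((List.finRange 19).all fun i => (List.finRange 19).all fun j => chkT i j) = true := by
  decide +kernel

def idx (l : List ℕ) (k : ℕ) : Fin 19 := Fin.ofNat 19 (l.getD k 0)

def chkG (i j : Fin 19) : Bool :=
  (decide (i = j)) ||
  ((decide (dot (Gf i j) (P (idx (Gf i j) 4)) = 0)) &&
   (decide (dot (Gf i j) (P (idx (Gf i j) 5)) = 0)) &&
   (decide (dot (Gf i j) (P (idx (Gf i j) 6)) = 0)) &&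
   (decide (idx (Gf i j) 4 ≠ idx (Gf i j) 5)) &&
   (decide (dot (Tf (idx (Gf i j) 4) (idx (Gf i j) 5)) (P (idx (Gf i j) 6)) ≠ 0)) &&
   (List.finRange 19).all fun x =>
     (decide (dot (Tf i j) (P x) ≠ 0)) || (decide (dot (Gf i j) (P x) ≠ 0)))

theorem chkG_all : ((List.finRange 19).all fun i => (List.finRange 19).all fun j => chkG i j) = true := by
  decide +kernel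

def chkS (i j : Fin 19) : Bool :=
  (decide (i = j)) || (decide (dot (Tf i i) (P j) ≠ 0))

theorem chkS_all : ((List.finRange 19).all fun i => (List.finRange 19).all fun j => chkS i j) = true := by
  decide +kernel

def chkA (i j : Fin 19) : Bool :=
  (decide (i = j)) || (decide (P i 0 = 0)) || (decide (P j 0 = 0)) ||
    (List.finRange 19).any fun h => (decide (P h 0 = 0)) &&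
      (List.finRange 7).any fun c =>
        (List.finRange 4).all fun k => decide (P i k - P j k = (c.val : ZMod 7) * P h k)

theorem chkA_all : ((List.finRange 19).all fun i => (List.finRange 19).all fun j => chkA i j) = true := by
  decide +kernel

theorem P_zero_or_one : ((List.finRange 19).all fun i => decide (P i 0 = 0 ∨ P i 0 = 1)) = true := by
  decide +kernel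

theorem no_functional : ((List.finRange 7).all fun a => (List.finRange 7).all fun b =>
    (List.finRange 7).all fun c => (List.finRange 7).all fun d =>
      (List.finRange 19).any fun x => decide (dot [a.val, b.val, c.val, d.val] (P x) = 0)) = true := by
  decide +kernel

theorem P_ne_zero : ((List.finRange 19).all fun i => decide (P i ≠ 0)) = true := by
  decide +kernel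

end Pool.Agent.Lib.Pe1005d
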